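import Pool.Agent.H56.ER2.Targets
import Pool.Agent.H66.ER2.Targets

set_option autoImplicit false

open Pool.Agent.H48.ER Pool.Agent.H52.ER2 Pool.Agent.H66.ER2 Pool.Agent.H56.ER2

namespace Pool.Agent.H3.ER2

theorem pf_RVZ (hREV : Pool.Agent.H66.ER2.T_REV) : T_RVZ := by
  intro V G v n z h
  obtain ⟨h1, h2, h3, h4⟩ := hREV V G v n z h.so
  exact ⟨⟨h.cls, h.nco, h.f1, h1⟩, h3, h4, h2⟩

end Pool.Agent.H3.ER2
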